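import Pool.Agent.Helper95.BK.Defs

/-!
Definitions for the local form of the reduction theorem: fixed embeddings, complex conjugations,
extensions that are locally trivial over a given one.
-/

open scoped Pointwise NumberField
open Polynomial IsDedekindDomain

namespace Pool.BK

section Embeddings

variable {K Ω : Type} [Field K] [Field Ω] [Algebra K Ω]

/-- The number of `K`-embeddings of `L` into `Ω` fixed by `σ`. -/
noncomputable def fixEmb (σ : Ω ≃ₐ[K] Ω) (L : IntermediateField K Ω) : ℕ :=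
  Nat.card {τ : L →ₐ[K] Ω // ∀ x, σ (τ x) = τ x}

/-- `σ` is the complex conjugation of an embedding of `Ω` into `ℂ`. -/
def IsConj (σ : Ω ≃ₐ[K] Ω) : Prop := ∃ j : Ω →+* ℂ, ∀ x, j (σ x) = starRingEnd ℂ (j x)

/-- `L F / L` is unramified at all finite places and completely split at the places above `T`. -/
def LocTriv [NumberField K] (F : IntermediateField K Ω) (T : Set (HeightOneSpectrum (𝓞 K)))
    (L : IntermediateField K Ω) : Prop :=
  ∀ Q : Ideal (𝓞 Ω), Q.IsPrime → Q ≠ ⊥ → ∀ σ ∈ L.fixingSubgroup,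
    (σ ∈ Q.inertia (Ω ≃ₐ[K] Ω) ∨ (σ ∈ MulAction.stabilizer (Ω ≃ₐ[K] Ω) Q ∧
      ∃ v ∈ T, Q.under (𝓞 K) = v.asIdeal)) → σ ∈ F.fixingSubgroup

/-- `σ` lies in the decomposition group of a prime which is ramified in `F` or lies above `T`. -/
def IsLocal [NumberField K] (F : IntermediateField K Ω) (T : Set (HeightOneSpectrum (𝓞 K)))
    (σ : Ω ≃ₐ[K] Ω) : Prop :=
  ∃ Q : Ideal (𝓞 Ω), Q.IsPrime ∧ Q ≠ ⊥ ∧ σ ∈ MulAction.stabilizer (Ω ≃ₐ[K] Ω) Q ∧
    (¬ Q.inertia (Ω ≃ₐ[K] Ω) ≤ F.fixingSubgroup ∨ ∃ v ∈ T, Q.under (𝓞 K) = v.asIdeal)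

end Embeddings

end Pool.BK
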