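import Pool.Agent.Helper95.BK.Defs4

/-!
The fine form of the local condition, and meromorphic continuation of the L-function.
-/

open scoped Pointwise NumberField
open Polynomial IsDedekindDomain

namespace Pool.BK

/-- `σ` lies in the decomposition group of a prime `Q`, and the closed subgroup generated by `σ`
contains an element that acts nontrivially on `F` and lies in the inertia group of `Q`, or `Q` lies
above `T` and `σ` acts nontrivially on `F`. -/
def IsLoc {K Ω : Type} [Field K] [NumberField K] [Field Ω] [Algebra K Ω]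
    (F : IntermediateField K Ω) (T : Set (HeightOneSpectrum (𝓞 K))) (σ : Ω ≃ₐ[K] Ω) : Prop :=
  ∃ Q : Ideal (𝓞 Ω), Q.IsPrime ∧ Q ≠ ⊥ ∧ σ ∈ MulAction.stabilizer (Ω ≃ₐ[K] Ω) Q ∧
    ((∃ τ ∈ (Subgroup.zpowers σ).topologicalClosure,
        τ ∈ Q.inertia (Ω ≃ₐ[K] Ω) ∧ τ ∉ F.fixingSubgroup) ∨
      (σ ∉ F.fixingSubgroup ∧ ∃ v ∈ T, Q.under (𝓞 K) = v.asIdeal))

/-- The L-function of `V` (with rational Euler polynomials independent of `l`) converges in a half
plane and continues meromorphically to a neighbourhood of the half line `[0, ∞)`. -/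
def HasContinuation (L Ω : Type) [Field L] [NumberField L] [Field Ω] [Algebra L Ω]
    (V : LSystem (Ω ≃ₐ[L] Ω)) : Prop :=
  ∃ P : HeightOneSpectrum (𝓞 L) → ℚ[X], IsEulerFamily L Ω V P ∧
    ∃ (σ : ℝ) (U : Set ℂ) (Λ : ℂ → ℂ), IsOpen U ∧ {s : ℂ | σ < s.re} ⊆ U ∧
      (∀ t : ℝ, 0 ≤ t → (t : ℂ) ∈ U) ∧ MeromorphicOn Λ U ∧
      ∀ s : ℂ, σ < s.re → HasProd (eulerFactor L P s) (Λ s)

end Pool.BK
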