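import Mathlib

/-!
Systems of l-adic representations of the absolute Galois group of a number field, their Euler
factors and L-function, the Bloch-Kato Selmer groups, and the order of vanishing formula.
-/

open scoped Pointwise NumberField
open Polynomial IsDedekindDomain

namespace Pool.BK

/-- A system of continuous `l`-adic representations of the topological group `G`, one for every
prime number `l`. -/
structure LSystem (G : Type) [Group G] [TopologicalSpace G] where
  /-- the dimension of the `l`-adic member -/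
  dim : ℕ → ℕ
  /-- the `l`-adic representation, in matrix form -/
  rep : ∀ (l : ℕ) [Fact l.Prime], G →* Matrix (Fin (dim l)) (Fin (dim l)) ℚ_[l]
  /-- continuity -/
  cont : ∀ (l : ℕ) [Fact l.Prime], Continuous (rep l)

/-- Period modules at the prime ideals of `O`, permuted by `G`: for every ideal `P` a
`ℚ_p`-subspace `fil P` (in the arithmetic situation the crystalline period ring of the completion
at `P`) of a `G`-representation `M`, with `g (fil P) ⊆ fil (g P)`, and a distinguished vector
`one P` of `fil P`, with `g (one P) = one (g P)`. -/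
structure PeriodData (G O : Type) [Group G] [CommRing O] [MulSemiringAction G O]
    (p : ℕ) [Fact p.Prime] where
  /-- the ambient space -/
  M : Type
  /-- its addition -/
  [acg : AddCommGroup M]
  /-- its vector space structure -/
  [mod : Module ℚ_[p] M]
  /-- the action of `G` -/
  act : Representation ℚ_[p] G M
  /-- the period module at `P` -/
  fil : Ideal O → Submodule ℚ_[p] M
  /-- its unit vector -/
  one : Ideal O → M
  one_mem : ∀ P, one P ∈ fil P
  act_mem : ∀ (g : G) (P : Ideal O) (x : M), x ∈ fil P → act g x ∈ fil (g • P)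
  act_one : ∀ (g : G) (P : Ideal O), act g (one P) = one (g • P)

attribute [instance] PeriodData.acg PeriodData.mod

section Group

variable {G O : Type} [Group G] [CommRing O] [MulSemiringAction G O] {n : ℕ}
variable {F : Type} [Field F]

/-- The vectors fixed by the subgroup `I`. -/
def invSub (ρ : G →* Matrix (Fin n) (Fin n) F) (I : Subgroup G) : Submodule F (Fin n → F) where
  carrier := {v | ∀ g ∈ I, (ρ g).mulVec v = v}
  add_mem' {a b} ha hb g hg := by rw [Matrix.mulVec_add, ha g hg, hb g hg]
  zero_mem' g _ := Matrix.mulVec_zero _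
  smul_mem' c x hx g hg := by rw [Matrix.mulVec_smul, hx g hg]

open Classical in
/-- The endomorphism of the vectors fixed by `H` given by `ρ g`, when `ρ g` preserves this space
(for instance when `g` normalises `H`); otherwise `0`. -/
noncomputable def endOn (ρ : G →* Matrix (Fin n) (Fin n) F) (H : Subgroup G) (g : G) :
    Module.End F (invSub ρ H) :=
  if h : ∀ v ∈ invSub ρ H, Matrix.toLin' (ρ g) v ∈ invSub ρ H then
    (Matrix.toLin' (ρ g)).restrict h else 0

/-- The polynomial `det (1 - T φ⁻¹)` on the vectors fixed by the inertia group of the prime `P`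
(`φ` will be an arithmetic Frobenius at `P`, so that `φ⁻¹` is a geometric one). -/
noncomputable def eulerPoly (ρ : G →* Matrix (Fin n) (Fin n) F) (P : Ideal O) (φ : G) : F[X] :=
  (endOn ρ (P.inertia G) φ⁻¹).charpoly.reverse

/-- Crossed homomorphisms. -/
def IsCocycle (ρ : G →* Matrix (Fin n) (Fin n) F) (c : G → Fin n → F) : Prop :=
  ∀ g h, c (g * h) = c g + (ρ g).mulVec (c h)

/-- The dimension of the fixed vectors. -/
noncomputable def h0 (ρ : G →* Matrix (Fin n) (Fin n) F) : ℕ :=
  Module.finrank F (invSub ρ (⊤ : Subgroup G))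

/-- The coboundaries. -/
def B1 (ρ : G →* Matrix (Fin n) (Fin n) F) : Submodule F (G → Fin n → F) where
  carrier := {c | ∃ v, ∀ g, c g = (ρ g).mulVec v - v}
  add_mem' := by
    rintro a b ⟨v, hv⟩ ⟨w, hw⟩
    refine ⟨v + w, fun g => ?_⟩
    rw [Pi.add_apply, hv, hw, Matrix.mulVec_add]; abel
  zero_mem' := ⟨0, fun g => by simp⟩
  smul_mem' := by
    rintro r c ⟨v, hv⟩
    refine ⟨r • v, fun g => ?_⟩
    rw [Pi.smul_apply, hv, Matrix.mulVec_smul, smul_sub]

variable {p : ℕ} [Fact p.Prime]

/-- The local condition of Bloch and Kato at the prime `P`: away from `p` the class dies on the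
inertia group, at `p` it dies in the cohomology of the decomposition group with values in the
tensor product with the period module. -/
def LocCond (ρ : G →* Matrix (Fin n) (Fin n) ℚ_[p]) (B : PeriodData G O p)
    (c : G → Fin n → ℚ_[p]) (P : Ideal O) : Prop :=
  ((p : O) ∉ P → ∃ v, ∀ g ∈ P.inertia G, c g = (ρ g).mulVec v - v) ∧
  ((p : O) ∈ P → ∃ b : Fin n → B.M, (∀ i, b i ∈ B.fil P) ∧
    ∀ g ∈ MulAction.stabilizer G P, ∀ i,
      c g i • B.one P = ∑ j, ρ g i j • B.act g (b j) - b i)

variable [TopologicalSpace G]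

/-- The continuous crossed homomorphisms that satisfy the local condition at every nonzero prime
ideal of `O`. -/
def Z1f (ρ : G →* Matrix (Fin n) (Fin n) ℚ_[p]) (B : PeriodData G O p) :
    Submodule ℚ_[p] (G → Fin n → ℚ_[p]) where
  carrier := {c | IsCocycle ρ c ∧ Continuous c ∧ ∀ P : Ideal O, P.IsPrime → P ≠ ⊥ →
    LocCond ρ B c P}
  add_mem' := by
    rintro a b ⟨ha, ha', ha''⟩ ⟨hb, hb', hb''⟩
    refine ⟨fun g h => ?_, ha'.add hb', fun P hP hP0 => ⟨fun hp => ?_, fun hp => ?_⟩⟩
    · simp only [Pi.add_apply, ha g h, hb g h, Matrix.mulVec_add]; abel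
    · obtain ⟨v, hv⟩ := (ha'' P hP hP0).1 hp
      obtain ⟨w, hw⟩ := (hb'' P hP hP0).1 hp
      refine ⟨v + w, fun g hg => ?_⟩
      rw [Pi.add_apply, hv g hg, hw g hg, Matrix.mulVec_add]; abel
    · obtain ⟨v, hv', hv⟩ := (ha'' P hP hP0).2 hp
      obtain ⟨w, hw', hw⟩ := (hb'' P hP hP0).2 hp
      refine ⟨v + w, fun i => add_mem (hv' i) (hw' i), fun g hg i => ?_⟩
      have h1 := hv g hg i
      have h2 := hw g hg i
      simp only [Pi.add_apply, add_smul, h1, h2, map_add, smul_add, Finset.sum_add_distrib]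
      abel
  zero_mem' := by
    refine ⟨fun g h => by simp, continuous_const, fun P hP hP0 =>
      ⟨fun hp => ⟨0, fun g hg => by simp⟩, fun hp => ⟨0, fun i => zero_mem _, fun g hg i => by simp⟩⟩⟩
  smul_mem' := by
    rintro r c ⟨ha, ha', ha''⟩
    refine ⟨fun g h => ?_, ha'.const_smul r, fun P hP hP0 => ⟨fun hp => ?_, fun hp => ?_⟩⟩
    · simp only [Pi.smul_apply, ha g h, Matrix.mulVec_smul, smul_add]
    · obtain ⟨v, hv⟩ := (ha'' P hP hP0).1 hp
      refine ⟨r • v, fun g hg => ?_⟩
      rw [Pi.smul_apply, hv g hg, Matrix.mulVec_smul, smul_sub]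
    · obtain ⟨v, hv', hv⟩ := (ha'' P hP hP0).2 hp
      refine ⟨r • v, fun i => Submodule.smul_mem _ _ (hv' i), fun g hg i => ?_⟩
      have h1 := hv g hg i
      simp only [Pi.smul_apply, smul_eq_mul, mul_smul, h1, map_smul, smul_sub, Finset.smul_sum]
      congr 1
      refine Finset.sum_congr rfl fun j _ => ?_
      rw [smul_comm]

/-- The Bloch-Kato Selmer group `H¹_f`: the classes of the elements of `Z1f`. -/
abbrev H1f (ρ : G →* Matrix (Fin n) (Fin n) ℚ_[p]) (B : PeriodData G O p) : Type :=
  (Z1f ρ B) ⧸ ((B1 ρ).submoduleOf (Z1f ρ B))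

end Group

section Fields

variable (L Ω : Type) [Field L] [NumberField L] [Field Ω] [Algebra L Ω]

/-- `P v` is the Euler polynomial `det (1 - T Frob_v | V_l^{I_v})` at the finite place `v`, for
every finite place `v` and every prime number `l` not below `v`. -/
def IsEulerFamily (V : LSystem (Ω ≃ₐ[L] Ω)) (P : HeightOneSpectrum (𝓞 L) → ℚ[X]) : Prop :=
  ∀ (v : HeightOneSpectrum (𝓞 L)) (l : ℕ) [Fact l.Prime], (l : 𝓞 L) ∉ v.asIdeal →
    ∀ Q : Ideal (𝓞 Ω), Q.IsPrime → Q.under (𝓞 L) = v.asIdeal →
      ∀ φ : Ω ≃ₐ[L] Ω, (∀ x : 𝓞 Ω, φ • x - x ^ v.asIdeal.absNorm ∈ Q) →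
        eulerPoly (V.rep l) Q φ = (P v).map (algebraMap ℚ ℚ_[l])

/-- The factor of the Euler product at `v`. -/
noncomputable def eulerFactor (P : HeightOneSpectrum (𝓞 L) → ℚ[X]) (s : ℂ)
    (v : HeightOneSpectrum (𝓞 L)) : ℂ :=
  (aeval ((v.asIdeal.absNorm : ℂ) ^ (-s)) (P v))⁻¹

/-- The assertion of the conjecture for the `m`-th power of the L-function of `V`: the Euler
polynomials are rational and independent of `l`, the Euler product converges in a right half
plane, its `m`-th power continues meromorphically to a neighbourhood of the real half line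
`[0, ∞)`, and for every prime `p` the order at `0` is `m (dim H¹_f - dim H⁰)`. -/
def BKpow (V : LSystem (Ω ≃ₐ[L] Ω))
    (B : ∀ (p : ℕ) [Fact p.Prime], PeriodData (Ω ≃ₐ[L] Ω) (𝓞 Ω) p) (m : ℕ) : Prop :=
  ∃ P : HeightOneSpectrum (𝓞 L) → ℚ[X], IsEulerFamily L Ω V P ∧
    ∃ (σ : ℝ) (U : Set ℂ) (Λ : ℂ → ℂ), IsOpen U ∧ {s : ℂ | σ < s.re} ⊆ U ∧
      (∀ t : ℝ, 0 ≤ t → (t : ℂ) ∈ U) ∧ MeromorphicOn Λ U ∧
      (∀ s : ℂ, σ < s.re → ∃ z : ℂ, z ≠ 0 ∧ HasProd (eulerFactor L P s) z ∧ Λ s = z ^ m) ∧
      ∀ (p : ℕ) [Fact p.Prime], Module.Finite ℚ_[p] (H1f (V.rep p) (B p)) ∧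
        meromorphicOrderAt Λ 0 =
          (((m : ℤ) * ((Module.finrank ℚ_[p] (H1f (V.rep p) (B p)) : ℤ) -
            (h0 (V.rep p) : ℤ)) : ℤ) : WithTop ℤ)

/-- The full assertion of the conjecture for `V`. -/
def BKHolds (V : LSystem (Ω ≃ₐ[L] Ω))
    (B : ∀ (p : ℕ) [Fact p.Prime], PeriodData (Ω ≃ₐ[L] Ω) (𝓞 Ω) p) : Prop :=
  BKpow L Ω V B 1

end Fields

section Restriction

/-- Pull back of period modules along a homomorphism compatible with the actions on `O`. -/
noncomputable def PeriodData.comap {G H O : Type} [Group G] [Group H] [CommRing O] [MulSemiringAction G O]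
    [MulSemiringAction H O] {p : ℕ} [Fact p.Prime] (B : PeriodData G O p) (f : H →* G)
    (hf : ∀ (h : H) (x : O), h • x = f h • x) : PeriodData H O p where
  M := B.M
  act := B.act.comp f
  fil := B.fil
  one := B.one
  one_mem := B.one_mem
  act_mem h P x hx := by
    have : h • P = f h • P := by
      ext y
      rw [Ideal.mem_pointwise_smul_iff_inv_smul_mem, Ideal.mem_pointwise_smul_iff_inv_smul_mem,
        hf, map_inv]
    rw [this]
    exact B.act_mem (f h) P x hx
  act_one h P := by
    have : h • P = f h • P := by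
      ext y
      rw [Ideal.mem_pointwise_smul_iff_inv_smul_mem, Ideal.mem_pointwise_smul_iff_inv_smul_mem,
        hf, map_inv]
    rw [this]
    exact B.act_one (f h) P

/-- Pull back of a system of representations along a continuous homomorphism. -/
noncomputable def LSystem.comap {G H : Type} [Group G] [Group H] [TopologicalSpace G] [TopologicalSpace H]
    (V : LSystem G) (f : H →* G) (hf : Continuous f) : LSystem H where
  dim := V.dim
  rep l _ := (V.rep l).comp f
  cont l _ := (V.cont l).comp hf

variable (K L Ω : Type) [Field K] [Field L] [Field Ω] [Algebra K L] [Algebra K Ω] [Algebra L Ω]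
  [IsScalarTower K L Ω]

/-- The inclusion of the Galois groups. -/
noncomputable def resHom : (Ω ≃ₐ[L] Ω) →* (Ω ≃ₐ[K] Ω) := AlgEquiv.restrictScalarsHom K

theorem continuous_resHom : Continuous (resHom K L Ω) := by
  refine continuous_of_continuousAt_one _ ?_
  rw [ContinuousAt, map_one]
  intro U hU
  rw [krullTopology_mem_nhds_one_iff] at hU
  obtain ⟨E, hE, hEU⟩ := hU
  let b := Module.finBasis K E
  let S : Set Ω := Set.range fun i => (b i : Ω)
  have : Finite S := Set.finite_range _
  have hint : ∀ x ∈ S, IsIntegral L x := by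
    rintro _ ⟨i, rfl⟩
    have h1 : IsIntegral K (b i) := Algebra.IsIntegral.isIntegral _
    have h2 : IsIntegral K (b i : Ω) := h1.map E.val
    exact h2.tower_top
  have hfd : FiniteDimensional L (IntermediateField.adjoin L S) :=
    IntermediateField.finiteDimensional_adjoin hint
  refine Filter.mem_map.2 ?_
  rw [krullTopology_mem_nhds_one_iff]
  refine ⟨IntermediateField.adjoin L S, hfd, fun σ hσ => hEU ?_⟩
  change _ ∈ E.fixingSubgroup
  rw [IntermediateField.mem_fixingSubgroup_iff]
  intro x hx
  have h3 : x ∈ IntermediateField.adjoin L S := by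
    have h5 := congrArg (fun y : E => (y : Ω)) (b.sum_repr ⟨x, hx⟩)
    rw [← show ((⟨x, hx⟩ : E) : Ω) = x from rfl, ← h5]
    simp only [AddSubmonoidClass.coe_finsetSum, IntermediateField.coe_smul]
    refine sum_mem fun i _ => ?_
    rw [Algebra.smul_def, IsScalarTower.algebraMap_apply K L Ω]
    exact mul_mem (IntermediateField.algebraMap_mem _ _)
      (IntermediateField.subset_adjoin L _ ⟨i, rfl⟩)
  have h4 : σ ∈ (IntermediateField.adjoin L S).fixingSubgroup := hσ
  rw [IntermediateField.mem_fixingSubgroup_iff] at h4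
  exact h4 x h3

variable {K Ω}

/-- The restriction of a system of representations to the Galois group of `L`. -/
noncomputable def LSystem.res (V : LSystem (Ω ≃ₐ[K] Ω)) :
    LSystem (Ω ≃ₐ[L] Ω) :=
  V.comap (resHom K L Ω) (continuous_resHom K L Ω)

/-- The restriction of the period modules to the Galois group of `L`. -/
noncomputable def PeriodData.res {p : ℕ} [Fact p.Prime] (B : PeriodData (Ω ≃ₐ[K] Ω) (𝓞 Ω) p) :
    PeriodData (Ω ≃ₐ[L] Ω) (𝓞 Ω) p :=
  B.comap (resHom K L Ω) (fun _ _ => rfl)

end Restriction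

/-- The number of real embeddings of `E` extending the real embedding `v` of `K`. -/
noncomputable def realCount (K E : Type) [Field K] [Field E] [Algebra K E] (v : K →+* ℝ) : ℕ :=
  Nat.card {r : E →+* ℝ // r.comp (algebraMap K E) = v}

end Pool.BK
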