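import Pool.Agent.Helper95.BK.Defs

/-!
Auxiliary definitions for the reduction theorems on the order of vanishing formula.
-/

open scoped Pointwise NumberField
open Polynomial IsDedekindDomain

namespace Pool.BK

/-- The number of cosets of `H` fixed by `g`. -/
noncomputable def fixCount {G : Type} [Group G] (H : Subgroup G) (g : G) : ℕ :=
  Nat.card (MulAction.fixedBy (G ⧸ H) g)

/-- The power sums of the inverse roots of a polynomial with constant coefficient `1`, through
the logarithmic derivative. -/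
noncomputable def psum {F : Type} [Field F] (P : F[X]) (k : ℕ) : F :=
  PowerSeries.coeff k (-(PowerSeries.X * ((derivative P : F[X]) : PowerSeries F) *
    (P : PowerSeries F)⁻¹))

/-- The local trace functional. -/
noncomputable def locTr {G : Type} [Group G] {F : Type} [Field F] {n : ℕ}
    (ρ : G →* Matrix (Fin n) (Fin n) F) (I N : Subgroup G) (g : G) (χ : G → ℕ) : F :=
  (Nat.card (I ⧸ N.subgroupOf I) : F)⁻¹ *
    ∑ᶠ j : I ⧸ N.subgroupOf I, LinearMap.trace F _ (endOn ρ (I ⊓ N) (g * (j.out : G))) *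
      (χ (g * (j.out : G)) : F)

/-- The vectors of a representation fixed by a subgroup. -/
def fixedSub {k G W : Type} [Field k] [Group G] [AddCommGroup W] [Module k W]
    (τ : Representation k G W) (H : Subgroup G) : Submodule k W where
  carrier := {w | ∀ h ∈ H, τ h w = w}
  add_mem' {a b} ha hb h hh := by rw [map_add, ha h hh, hb h hh]
  zero_mem' h _ := map_zero _
  smul_mem' c w hw h hh := by rw [map_smul, hw h hh]

section Cohomology

variable {G O : Type} [Group G] [CommRing O] [MulSemiringAction G O] {p : ℕ} [Fact p.Prime]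
  {n : ℕ}

/-- The restriction of period data to a subgroup. -/
noncomputable abbrev PeriodData.sub (B : PeriodData G O p) (N : Subgroup G) : PeriodData N O p :=
  B.comap N.subtype (fun _ _ => rfl)

/-- The conjugation action on cocycles. -/
noncomputable def conjFun (ρ : G →* Matrix (Fin n) (Fin n) ℚ_[p]) (N : Subgroup G) [N.Normal]
    (g : G) (c : N → Fin n → ℚ_[p]) : N → Fin n → ℚ_[p] :=
  fun x => (ρ g).mulVec (c ⟨g⁻¹ * x * g⁻¹⁻¹, Subgroup.Normal.conj_mem ‹_› _ x.2 _⟩)

end Cohomology

section Fields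

variable (K L : Type) [Field K] [Field L] [Algebra K L] [NumberField K] [NumberField L]

/-- The places of `L` above the place `v` of `K`. -/
def PlacesOver (v : HeightOneSpectrum (𝓞 K)) : Type :=
  {w : HeightOneSpectrum (𝓞 L) // w.asIdeal.under (𝓞 K) = v.asIdeal}

/-- The polynomial `∏_{w ∣ v} P_w(T^{f_w})`. -/
noncomputable def localProd {F : Type} [Field F] (v : HeightOneSpectrum (𝓞 K))
    (P : HeightOneSpectrum (𝓞 L) → F[X]) : F[X] :=
  ∏ᶠ w : PlacesOver K L v, expand F (w.1.asIdeal.inertiaDeg (𝓞 K)) (P w.1)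

variable {K} {Ω : Type} [Field Ω] [Algebra K Ω] [Algebra L Ω] [IsScalarTower K L Ω]

/-- `P` is the family of Euler polynomials of the restriction of `ρ` to `L` at the places of `L`
above `v`. -/
def IsLocalFamily {F : Type} [Field F] {n : ℕ} (ρ : (Ω ≃ₐ[K] Ω) →* Matrix (Fin n) (Fin n) F)
    (v : HeightOneSpectrum (𝓞 K)) (P : HeightOneSpectrum (𝓞 L) → F[X]) : Prop :=
  ∀ w : HeightOneSpectrum (𝓞 L), w.asIdeal.under (𝓞 K) = v.asIdeal →
    ∀ Q : Ideal (𝓞 Ω), Q.IsPrime → Q.under (𝓞 L) = w.asIdeal →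
      ∀ φ : Ω ≃ₐ[L] Ω, (∀ x : 𝓞 Ω, φ • x - x ^ w.asIdeal.absNorm ∈ Q) →
        eulerPoly (ρ.comp (resHom K L Ω)) Q φ = P w

end Fields

end Pool.BK
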