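import Pool.Agent.Helper95.BK.Defs

/-!
Short form of the definitions: Euler polynomials and dimensions through bases.
-/

open scoped Pointwise NumberField
open Polynomial IsDedekindDomain

namespace Pool.BK

section Group

variable {G O : Type} [Group G] [CommRing O] [MulSemiringAction G O] {n : ℕ}
variable {F : Type} [Field F]

/-- The vectors fixed by the subgroup `I`. -/
def Fixed (ρ : G →* Matrix (Fin n) (Fin n) F) (I : Subgroup G) : Set (Fin n → F) :=
  {v | ∀ g ∈ I, (ρ g).mulVec v = v}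

/-- The coboundaries. -/
def Cobound (ρ : G →* Matrix (Fin n) (Fin n) F) : Set (G → Fin n → F) :=
  {c | ∃ v, ∀ g, c g = (ρ g).mulVec v - v}

/-- The vectors `b i` are a basis of `S` modulo `R`: they lie in `S`, and every member of `S`
differs from exactly one linear combination of the `b i` by a member of `R`. -/
def IsBasisMod (F : Type) [Field F] {W : Type} [AddCommGroup W] [Module F W] (S R : Set W)
    {k : ℕ} (b : Fin k → W) : Prop :=
  (∀ i, b i ∈ S) ∧ ∀ w ∈ S, ∃! a : Fin k → F, w - ∑ i, a i • b i ∈ R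

/-- `P` is the polynomial `det (1 - T g)` on the vectors fixed by the subgroup `I`: for some basis
of this space, with respect to which `g` has the matrix `A`, it is `det (1 - T A)`. -/
def IsFrobPoly (ρ : G →* Matrix (Fin n) (Fin n) F) (I : Subgroup G) (g : G) (P : F[X]) : Prop :=
  ∃ (k : ℕ) (b : Fin k → Fin n → F) (A : Matrix (Fin k) (Fin k) F),
    IsBasisMod F (Fixed ρ I) {0} b ∧ (∀ j, (ρ g).mulVec (b j) = ∑ i, A i j • b i) ∧
      P = A.charpolyRev

variable {p : ℕ} [Fact p.Prime] [TopologicalSpace G]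

/-- The continuous crossed homomorphisms that satisfy the local condition of Bloch and Kato at
every nonzero prime ideal of `O`. -/
def Selmer (ρ : G →* Matrix (Fin n) (Fin n) ℚ_[p]) (B : PeriodData G O p) :
    Set (G → Fin n → ℚ_[p]) :=
  {c | IsCocycle ρ c ∧ Continuous c ∧ ∀ P : Ideal O, P.IsPrime → P ≠ ⊥ → LocCond ρ B c P}

/-- `dim H¹_f - dim H⁰ = d`: there are a basis of the space `Selmer ρ B` modulo the coboundaries
and a basis of the space of fixed vectors, with `h` and `k` elements, and `d = h - k`. -/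
def SelmerDiff (ρ : G →* Matrix (Fin n) (Fin n) ℚ_[p]) (B : PeriodData G O p) (d : ℤ) : Prop :=
  ∃ (h k : ℕ) (b : Fin h → G → Fin n → ℚ_[p]) (e : Fin k → Fin n → ℚ_[p]),
    IsBasisMod ℚ_[p] (Selmer ρ B) (Cobound ρ) b ∧ IsBasisMod ℚ_[p] (Fixed ρ ⊤) {0} e ∧
      d = (h : ℤ) - (k : ℤ)

end Group

section Fields

variable (L Ω : Type) [Field L] [NumberField L] [Field Ω] [Algebra L Ω]

/-- `P v` is the Euler polynomial `det (1 - T Frob_v | V_l^{I_v})` at the finite place `v` (`Frob_v`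
the geometric Frobenius), for every finite place `v` and every prime number `l` not below `v`. -/
def EulerFamily (V : LSystem (Ω ≃ₐ[L] Ω)) (P : HeightOneSpectrum (𝓞 L) → ℚ[X]) : Prop :=
  ∀ (v : HeightOneSpectrum (𝓞 L)) (l : ℕ) [Fact l.Prime], (l : 𝓞 L) ∉ v.asIdeal →
    ∀ Q : Ideal (𝓞 Ω), Q.IsPrime → Q.under (𝓞 L) = v.asIdeal →
      ∀ φ : Ω ≃ₐ[L] Ω, (∀ x : 𝓞 Ω, φ • x - x ^ v.asIdeal.absNorm ∈ Q) →
        IsFrobPoly (V.rep l) (Q.inertia (Ω ≃ₐ[L] Ω)) φ⁻¹ ((P v).map (algebraMap ℚ ℚ_[l]))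

/-- The assertion of the conjecture for the `m`-th power of the L-function of `V`: the Euler
polynomials are rational and independent of `l`, the Euler product converges in a right half
plane, its `m`-th power continues meromorphically to a neighbourhood of the real half line
`[0, ∞)`, and for every prime `p` the order at `0` is `m (dim H¹_f - dim H⁰)`. -/
def Formula (V : LSystem (Ω ≃ₐ[L] Ω))
    (B : ∀ (p : ℕ) [Fact p.Prime], PeriodData (Ω ≃ₐ[L] Ω) (𝓞 Ω) p) (m : ℕ) : Prop :=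
  ∃ P : HeightOneSpectrum (𝓞 L) → ℚ[X], EulerFamily L Ω V P ∧
    ∃ (σ : ℝ) (U : Set ℂ) (Λ : ℂ → ℂ), IsOpen U ∧ {s : ℂ | σ < s.re} ⊆ U ∧
      (∀ t : ℝ, 0 ≤ t → (t : ℂ) ∈ U) ∧ MeromorphicOn Λ U ∧
      (∀ s : ℂ, σ < s.re → ∃ z : ℂ, z ≠ 0 ∧ HasProd (eulerFactor L P s) z ∧ Λ s = z ^ m) ∧
      ∀ (p : ℕ) [Fact p.Prime], ∃ d : ℤ, SelmerDiff (V.rep p) (B p) d ∧
        meromorphicOrderAt Λ 0 = (((m : ℤ) * d : ℤ) : WithTop ℤ)

end Fields

end Pool.BK
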