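import Pool.Agent.BK.Solomon

/-!
Fields over which a finite Galois extension of the base field becomes cyclic or hyperelementary.
-/

namespace Pool.BK

variable {K Ω : Type} [Field K] [Field Ω] [Algebra K Ω]

/-- The Galois group of `M / L` is cyclic for some finite Galois extension `M` of `K` that contains
`F` and `L`; this group is the image of the Galois group of `Ω / L` in that of `M / K`. -/
def CyclicIn (F L : IntermediateField K Ω) : Prop :=
  ∃ (M : IntermediateField K Ω) (_ : Normal K M), FiniteDimensional K M ∧ F ≤ M ∧ L ≤ M ∧
    IsCyclic (L.fixingSubgroup.map (AlgEquiv.restrictNormalHom (F := K) (K₁ := Ω) M))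

/-- The Galois group of `M / L` is hyperelementary for some finite Galois extension `M` of `K` that
contains `F` and `L`. -/
def HyperIn (F L : IntermediateField K Ω) : Prop :=
  ∃ (M : IntermediateField K Ω) (_ : Normal K M), FiniteDimensional K M ∧ F ≤ M ∧ L ≤ M ∧
    IsHyperelementary (L.fixingSubgroup.map (AlgEquiv.restrictNormalHom (F := K) (K₁ := Ω) M))

end Pool.BK
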