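import Pool.Agent.Helper95.BK.Public
import Pool.Agent.Helper95.BK.Defs4

/-!
Short form of the definitions for the induced systems (the motives `M ⊗ h(Spec L)` over `K`).
-/

open scoped Pointwise NumberField
open Polynomial IsDedekindDomain

namespace Pool.BK

section Local

variable {K : Type} (L : Type) [Field K] [NumberField K] [Field L] [NumberField L] [Algebra K L]
  {Ω : Type} [Field Ω] [Algebra K Ω] [Algebra L Ω] [IsScalarTower K L Ω]

/-- `R w` is the Euler polynomial of the restriction of `ρ` to `L` at `w`, for the places `w` of `L`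
above `v`. -/
def LocalFamily {F : Type} [Field F] {n : ℕ} (ρ : (Ω ≃ₐ[K] Ω) →* Matrix (Fin n) (Fin n) F)
    (v : HeightOneSpectrum (𝓞 K)) (R : HeightOneSpectrum (𝓞 L) → F[X]) : Prop :=
  ∀ w : HeightOneSpectrum (𝓞 L), w.asIdeal.under (𝓞 K) = v.asIdeal →
    ∀ Q : Ideal (𝓞 Ω), Q.IsPrime → Q.under (𝓞 L) = w.asIdeal →
      ∀ φ : Ω ≃ₐ[L] Ω, (∀ x : 𝓞 Ω, φ • x - x ^ w.asIdeal.absNorm ∈ Q) →
        IsFrobPoly (ρ.comp (resHom K L Ω)) (Q.inertia (Ω ≃ₐ[L] Ω)) φ⁻¹ (R w)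

end Local

variable (K L Ω : Type) [Field K] [NumberField K] [Field L] [NumberField L] [Field Ω]
  [Algebra K L] [Algebra K Ω] [Algebra L Ω] [IsScalarTower K L Ω]

/-- `P v` is the Euler polynomial at `v` of the representations of the Galois group of `K` induced
from the restriction of `V` to `L`, that is `∏_{w ∣ v} P_w(T^{f_w})`, for all finite places `v` of
`K` and all primes `l` not below `v`. -/
def IndFamily (V : LSystem (Ω ≃ₐ[K] Ω)) (P : HeightOneSpectrum (𝓞 K) → ℚ[X]) : Prop :=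
  ∀ (v : HeightOneSpectrum (𝓞 K)) (l : ℕ) [Fact l.Prime], (l : 𝓞 K) ∉ v.asIdeal →
    ∀ R : HeightOneSpectrum (𝓞 L) → ℚ_[l][X], LocalFamily L (V.rep l) v R →
      localProd K L v R = (P v).map (algebraMap ℚ ℚ_[l])

/-- The assertion of the conjecture for the `m`-th power of the L-function of the system over `K`
induced from the restriction of `V` to `L` (the system of the motive `M ⊗ h(Spec L)`), whose
cohomology is that of `V` over `L`. -/
def IndFormula (V : LSystem (Ω ≃ₐ[K] Ω))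
    (B : ∀ (p : ℕ) [Fact p.Prime], PeriodData (Ω ≃ₐ[K] Ω) (𝓞 Ω) p) (m : ℕ) : Prop :=
  ∃ P : HeightOneSpectrum (𝓞 K) → ℚ[X], IndFamily K L Ω V P ∧
    ∃ (σ : ℝ) (U : Set ℂ) (Λ : ℂ → ℂ), IsOpen U ∧ {s : ℂ | σ < s.re} ⊆ U ∧
      (∀ t : ℝ, 0 ≤ t → (t : ℂ) ∈ U) ∧ MeromorphicOn Λ U ∧
      (∀ s : ℂ, σ < s.re → ∃ z : ℂ, z ≠ 0 ∧ HasProd (eulerFactor K P s) z ∧ Λ s = z ^ m) ∧
      ∀ (p : ℕ) [Fact p.Prime], ∃ d : ℤ, SelmerDiff ((V.res L).rep p) ((B p).res L) d ∧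
        meromorphicOrderAt Λ 0 = (((m : ℤ) * d : ℤ) : WithTop ℤ)

end Pool.BK
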